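import Mathlib

set_option autoImplicit false

namespace Pool.Agent.Results.MP_842c30_nt.Concat

lemma key (r : ℕ) :
    (999999 : ℤ) * (10 * (163840 * ∑ i ∈ Finset.range r, 10 ^ (6 * i)) + 1) =
      (1280 * 1000 ^ r - 799) * (1280 * 1000 ^ r + 799) := by
  induction r with
  | zero => norm_num
  | succ r ih =>
    rw [Finset.sum_range_succ]
    have h : (10 : ℤ) ^ (6 * r) = (1000 ^ r) ^ 2 := by
      rw [← pow_mul, mul_comm r 2, pow_mul, pow_mul]
      norm_num
    rw [h, pow_succ (1000 : ℤ) r]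
    linear_combination ih

theorem result :
    ∃ n : ℕ, 0 < n ∧ (∀ m : ℕ, n ≠ 10 ^ m) ∧ ∀ r : ℕ, 1 ≤ r →
      1 < 10 * (n * ∑ i ∈ Finset.range r, 10 ^ ((Nat.digits 10 n).length * i)) + 1 ∧
      ¬ (10 * (n * ∑ i ∈ Finset.range r, 10 ^ ((Nat.digits 10 n).length * i)) + 1).Prime := by
  refine ⟨163840, by norm_num, ?_, ?_⟩
  · intro m hm
    rcases Nat.lt_or_ge m 6 with h | h
    · interval_cases m <;> norm_num at hm
    · have : 10 ^ 6 ≤ 10 ^ m := Nat.pow_le_pow_right (by norm_num) h
      omega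
  · intro r hr
    have hd : (Nat.digits 10 163840).length = 6 := by norm_num
    rw [hd]
    have hk := key r
    have hx : (1000 : ℤ) ≤ 1000 ^ r := by
      calc (1000 : ℤ) = 1000 ^ 1 := by norm_num
        _ ≤ 1000 ^ r := pow_le_pow_right₀ (by norm_num) hr
    generalize (1000 : ℤ) ^ r = x at hk hx
    obtain ⟨N, hN⟩ : ∃ N : ℕ, N = 10 * (163840 * ∑ i ∈ Finset.range r, 10 ^ (6 * i)) + 1 :=
      ⟨_, rfl⟩
    have hN' : (N : ℤ) = 10 * (163840 * ∑ i ∈ Finset.range r, 10 ^ (6 * i)) + 1 := by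
      rw [hN]; push_cast; rfl
    rw [← hN'] at hk
    rw [← hN]
    refine ⟨by nlinarith, fun hp => ?_⟩
    have hp' : Prime (N : ℤ) := Nat.prime_iff_prime_int.mp hp
    have hpos : (0 : ℤ) < N := by exact_mod_cast hp.pos
    have hdv : (N : ℤ) ∣ (1280 * x - 799) * (1280 * x + 799) := ⟨999999, by linarith⟩
    rcases hp'.dvd_or_dvd hdv with ⟨k, h⟩ | ⟨k, h⟩
    · have h1 : 999999 = k * (1280 * x + 799) := by
        apply mul_left_cancel₀ hpos.ne'
        rw [h] at hk
        linarith
      have hk0 : 0 < k := by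
        by_contra hc
        push Not at hc
        nlinarith
      nlinarith
    · have h1 : 999999 = k * (1280 * x - 799) := by
        apply mul_left_cancel₀ hpos.ne'
        rw [h] at hk
        linarith
      have hk0 : 0 < k := by
        by_contra hc
        push Not at hc
        nlinarith
      nlinarith

end Pool.Agent.Results.MP_842c30_nt.Concat
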